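import Pool.Agent.QSN.StmtsA

/-!
Row IVM of the squad QSN: the invariance of the steps (copy of Helper39_QSX/INV.lean
with classes of roots).
-/

set_option autoImplicit false

namespace Pool.Agent.QSN.H76

open Pool.Agent.QSX Pool.Agent.QSN Matrix Finset

section abs
variable {ι κ G H : Type} [Group G] [Group H]

/-- `g` is in the domain of `π` and is mapped to `k` -/
def Qv (K : Subgroup H) (π : K →* H) (g k : H) : Prop := ∃ h : g ∈ K, π ⟨g, h⟩ = k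

lemma Qv.mul {K : Subgroup H} {π : K →* H} {g k g' k' : H} (h : Qv K π g k) (h' : Qv K π g' k') :
    Qv K π (g * g') (k * k') := by
  obtain ⟨h1, h2⟩ := h
  obtain ⟨h3, h4⟩ := h'
  refine ⟨K.mul_mem h1 h3, ?_⟩
  have : (⟨g * g', K.mul_mem h1 h3⟩ : K) = ⟨g, h1⟩ * ⟨g', h3⟩ := rfl
  rw [this, map_mul, h2, h4]

lemma Qv.one (K : Subgroup H) (π : K →* H) : Qv K π 1 1 := by
  refine ⟨K.one_mem, ?_⟩
  have : (⟨1, K.one_mem⟩ : K) = 1 := rfl
  rw [this, map_one]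

lemma Qv.unique {K : Subgroup H} {π : K →* H} {g k k' : H} (h : Qv K π g k) (h' : Qv K π g k') :
    k = k' := by
  obtain ⟨h1, h2⟩ := h
  obtain ⟨h3, h4⟩ := h'
  rw [← h2, ← h4]

lemma u_mem (D : RGM ι κ G H) (l : ι) (x : ℚ) : D.u l x ∈ D.Gam :=
  Subgroup.subset_closure ⟨l, x, rfl⟩

lemma u_zero (D : RGM ι κ G H) (l : ι) : D.u l 0 = 1 := by
  have h := D.add l 0 0
  rw [add_zero] at h
  exact (mul_eq_left.mp h.symm)

lemma u_neg (D : RGM ι κ G H) (l : ι) (x : ℚ) : D.u l (-x) = (D.u l x)⁻¹ := by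
  have h := D.add l (-x) x
  rw [neg_add_cancel, u_zero] at h
  exact eq_inv_of_mul_eq_one_left h.symm

lemma path (D : RGM ι κ G H) (K : Subgroup H) (π : K →* H) (Tt : Set ι)
    (h2 : ∀ t ∈ Tt, ∀ n ∈ D.Gam, ∀ x : ℚ, Qv K π (D.V t n x) 1) :
    ∀ (Ls : List (ι × ℚ)), (∀ q ∈ Ls, q.1 ∈ Tt) → ∀ n ∈ D.Gam,
      n * (Ls.map fun q => D.u q.1 q.2).prod ∈ D.Gam ∧
      Qv K π ((D.χ n)⁻¹ * D.χ (n * (Ls.map fun q => D.u q.1 q.2).prod)) 1 := by
  intro Ls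
  induction Ls with
  | nil =>
    intro _ n hn
    simp only [List.map_nil, List.prod_nil, mul_one]
    refine ⟨hn, ?_⟩
    rw [inv_mul_cancel]
    exact Qv.one K π
  | cons q Ls ih =>
    intro hq n hn
    have h3 : n * D.u q.1 q.2 ∈ D.Gam := D.Gam.mul_mem hn (u_mem D _ _)
    obtain ⟨h4, h5⟩ := ih (fun q' hq' => hq q' (List.mem_cons_of_mem _ hq')) _ h3
    rw [List.map_cons, List.prod_cons, ← mul_assoc]
    refine ⟨h4, ?_⟩
    have h6 := (h2 q.1 (hq q List.mem_cons_self) n hn q.2).mul h5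
    rw [mul_one] at h6
    unfold RGM.V at h6
    have h7 : (D.χ n)⁻¹ * D.χ (n * D.u q.1 q.2) * ((D.χ (n * D.u q.1 q.2))⁻¹ *
        D.χ (n * D.u q.1 q.2 * (Ls.map fun q => D.u q.1 q.2).prod))
        = (D.χ n)⁻¹ * D.χ (n * D.u q.1 q.2 * (Ls.map fun q => D.u q.1 q.2).prod) := by
      group
    rwa [h7] at h6

lemma inv_abs (D : RGM ι κ G H) (K : Subgroup H) (π : K →* H) (l l' : ι) (hll : D.cl l ≠ D.cl l') (Tt : Set ι)
    (hl' : l' ∈ Tt) (hT : ∀ t ∈ D.L l l', t.1 ∈ Tt)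
    (h1 : ∀ n ∈ D.Gam, ∀ x : ℚ, Qv K π (D.V l n x) (D.V l n x))
    (h2 : ∀ t ∈ Tt, ∀ n ∈ D.Gam, ∀ x : ℚ, Qv K π (D.V t n x) 1)
    (n : G) (hn : n ∈ D.Gam) (x y : ℚ) : D.V l (n * D.u l' y) x = D.V l n x := by
  have hnw : n * D.u l' y ∈ D.Gam := D.Gam.mul_mem hn (u_mem D _ _)
  have hnu : n * D.u l x ∈ D.Gam := D.Gam.mul_mem hn (u_mem D _ _)
  have hA := h2 l' hl' (n * D.u l' y) hnw (-y)
  have hB := h1 n hn x
  -- the path from n u to n w u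
  have hcom := D.com l l' hll (-x) y
  obtain ⟨hC1, hC2⟩ := path D K π Tt h2
    ((D.L l l').map fun t => (t.1, t.2.2.2 * (-x) ^ t.2.1 * y ^ t.2.2.1))
    (by
      intro q hq
      rw [List.mem_map] at hq
      obtain ⟨t, ht, rfl⟩ := hq
      exact hT t ht) (n * D.u l x) hnu
  rw [List.map_map] at hC1 hC2
  have hmap : ((D.L l l').map ((fun q : ι × ℚ => D.u q.1 q.2) ∘
      fun t => (t.1, t.2.2.2 * (-x) ^ t.2.1 * y ^ t.2.2.1))).prod
      = D.u l (-x) * D.u l' y * (D.u l (-x))⁻¹ * (D.u l' y)⁻¹ := by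
    rw [hcom]
    rfl
  rw [hmap] at hC1 hC2
  have hD := h2 l' hl' _ hC1 y
  have hE := ((hA.mul hB).mul hC2).mul hD
  rw [one_mul, mul_one, mul_one] at hE
  have hF := h1 (n * D.u l' y) hnw x
  have hG : D.V l' (n * D.u l' y) (-y) * D.V l n x *
      ((D.χ (n * D.u l x))⁻¹ * D.χ (n * D.u l x *
        (D.u l (-x) * D.u l' y * (D.u l (-x))⁻¹ * (D.u l' y)⁻¹))) *
      D.V l' (n * D.u l x * (D.u l (-x) * D.u l' y * (D.u l (-x))⁻¹ * (D.u l' y)⁻¹)) y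
      = D.V l (n * D.u l' y) x := by
    unfold RGM.V
    rw [u_neg, u_neg]
    have e1 : n * D.u l' y * (D.u l' y)⁻¹ = n := by group
    have e2 : n * D.u l x * ((D.u l x)⁻¹ * D.u l' y * ((D.u l x)⁻¹)⁻¹ * (D.u l' y)⁻¹) * D.u l' y
        = n * D.u l' y * D.u l x := by group
    rw [e1, e2]
    group
  rw [hG] at hE
  exact hF.unique hE

end abs

theorem ivm (inm : InmStmt) : IvmStmt := by
  intro X Y hX F _ _ P A l l' hll n hn x y
  obtain ⟨K, π, h1, h2⟩ := inm X Y hX F P A l l' hll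
  refine inv_abs A.rg K π l l' hll
    {t | ∃ p p' : ℝ, 0 ≤ p ∧ 0 < p' ∧ hX.rt t = p • hX.rt l + p' • hX.rt l'} ?_ ?_
    (fun n hn x => h1 l rfl n hn x) (fun t ht n hn x => h2 t ht n hn x) n hn x y
  · exact ⟨0, 1, le_refl _, one_pos, by rw [zero_smul, one_smul, zero_add]⟩
  · intro t ht
    obtain ⟨hp, hq, hr⟩ := hX.L_rt l l' t ht
    exact ⟨t.2.1, t.2.2.1, by positivity, by exact_mod_cast hq, hr⟩

end Pool.Agent.QSN.H76
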